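import Pool.Agent.Q297.FbmMain

open Filter Topology Matrix

open scoped ComplexOrder

namespace Pool.Agent.Results.MP_271f9a_pr.KappaPositive

/-- Covariance of fractional Brownian motion with Hurst parameter `H`. -/
noncomputable def fbmCov (H s t : ℝ) : ℝ :=
  (|s| ^ (2 * H) + |t| ^ (2 * H) - |s - t| ^ (2 * H)) / 2

/-- The `N × N` covariance matrix `R_H` at the times `1, ..., N`, for `H = γ / 2`
(row and column `i : Fin N` stand for the time `i + 1`), viewed as a complex matrix. -/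
noncomputable def covMatrix (γ : ℝ) (N : ℕ) : Matrix (Fin N) (Fin N) ℂ :=
  Matrix.of fun i j => ((fbmCov (γ / 2) ((i : ℕ) + 1) ((j : ℕ) + 1) : ℝ) : ℂ)

/-- The generalized Rayleigh quotient `(a* R_H^{∘2} a) / (a* R_H a)`. -/
noncomputable def rayleigh (γ : ℝ) (N : ℕ) (a : Fin N → ℂ) : ℝ :=
  (star a ⬝ᵥ ((covMatrix γ N ⊙ covMatrix γ N) *ᵥ a)).re / (star a ⬝ᵥ (covMatrix γ N *ᵥ a)).re

/-- `κ(γ, N)`: the infimum of the Rayleigh quotient over nonzero complex vectors. -/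
noncomputable def kappaN (γ : ℝ) (N : ℕ) : ℝ :=
  sInf {q : ℝ | ∃ a : Fin N → ℂ, a ≠ 0 ∧ q = rayleigh γ N a}

/-- `κ(γ) = lim_{N → ∞} κ(γ, N)`. -/
noncomputable def kappa (γ : ℝ) : ℝ := limUnder atTop (kappaN γ)

lemma covMatrix_eq (γ : ℝ) (N : ℕ) : covMatrix γ N = Q297.Fbm.covMat γ N := by
  ext i j
  simp only [covMatrix, Q297.Fbm.covMat, Matrix.of_apply, fbmCov, Q297.Fbm.cov]
  have : 2 * (γ / 2) = γ := by ring
  rw [this]

lemma denom_pos {γ : ℝ} (h1 : 1 < γ) (h2 : γ < 2) (N : ℕ) {a : Fin N → ℂ} (ha : a ≠ 0) :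
    0 < (star a ⬝ᵥ (covMatrix γ N *ᵥ a)).re := by
  rw [covMatrix_eq]
  have := (Q297.Fbm.covMat_posDef h1 h2 N).dotProduct_mulVec_pos ha
  exact (Complex.lt_def.1 this).1

lemma le_rayleigh {γ : ℝ} (h1 : 1 < γ) (h2 : γ < 2) (N : ℕ) {a : Fin N → ℂ} (ha : a ≠ 0) :
    Q297.Fbm.cst γ ≤ rayleigh γ N a := by
  unfold rayleigh
  rw [le_div_iff₀ (denom_pos h1 h2 N ha)]
  have := (Q297.Fbm.hadamard_psd h1 h2 N).dotProduct_mulVec_nonneg a
  rw [← covMatrix_eq, Matrix.sub_mulVec, dotProduct_sub, Matrix.smul_mulVec, dotProduct_smul] at this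
  have h := (Complex.le_def.1 this).1
  simp only [Complex.zero_re, Complex.sub_re, smul_eq_mul, Complex.re_ofReal_mul] at h
  linarith

lemma rayleigh_extend (γ : ℝ) (N : ℕ) (a : Fin N → ℂ) :
    rayleigh γ (N + 1) (Fin.snoc a (0 : ℂ) : Fin (N + 1) → ℂ) = rayleigh γ N a := by
  have hentry : ∀ i j : Fin N, covMatrix γ (N + 1) i.castSucc j.castSucc = covMatrix γ N i j := by
    intro i j
    simp [covMatrix]
  unfold rayleigh
  have e1 : star (Fin.snoc a (0 : ℂ) : Fin (N + 1) → ℂ) ⬝ᵥ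
      ((covMatrix γ (N + 1) ⊙ covMatrix γ (N + 1)) *ᵥ (Fin.snoc a (0 : ℂ) : Fin (N + 1) → ℂ)) =
      star a ⬝ᵥ ((covMatrix γ N ⊙ covMatrix γ N) *ᵥ a) := by
    simp [dotProduct, Matrix.mulVec, Fin.sum_univ_castSucc, Matrix.hadamard_apply, hentry]
  have e2 : star (Fin.snoc a (0 : ℂ) : Fin (N + 1) → ℂ) ⬝ᵥ
      (covMatrix γ (N + 1) *ᵥ (Fin.snoc a (0 : ℂ) : Fin (N + 1) → ℂ)) =
      star a ⬝ᵥ (covMatrix γ N *ᵥ a) := by
    simp [dotProduct, Matrix.mulVec, Fin.sum_univ_castSucc, hentry]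
  rw [e1, e2]

lemma le_kappaN {γ : ℝ} (h1 : 1 < γ) (h2 : γ < 2) (N : ℕ) :
    Q297.Fbm.cst γ ≤ kappaN γ (N + 1) := by
  unfold kappaN
  apply le_csInf
  · exact ⟨_, fun _ => 1, by
      intro h
      have := congrFun h 0
      simp at this, rfl⟩
  · rintro q ⟨a, ha, rfl⟩
    exact le_rayleigh h1 h2 _ ha

lemma kappaN_anti {γ : ℝ} (h1 : 1 < γ) (h2 : γ < 2) :
    Antitone (fun N => kappaN γ (N + 1)) := by
  apply antitone_nat_of_succ_le
  intro N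
  unfold kappaN
  apply csInf_le_csInf
  · refine ⟨Q297.Fbm.cst γ, ?_⟩
    rintro q ⟨a, ha, rfl⟩
    exact le_rayleigh h1 h2 _ ha
  · exact ⟨_, fun _ => 1, by
      intro h
      have := congrFun h 0
      simp at this, rfl⟩
  · rintro q ⟨a, ha, rfl⟩
    refine ⟨Fin.snoc a (0 : ℂ), ?_, (rayleigh_extend γ (N + 1) a).symm⟩
    intro h
    apply ha
    ext i
    have := congrFun h i.castSucc
    simpa using this

/-- For every `γ ∈ (1,2)` the limiting generalized eigenvalue `κ(γ)` exists and is positive; in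
fact it is at least the explicit positive number `(7 - 4 * 2 ^ γ + 3 ^ γ) / 2`. -/
theorem result (γ : ℝ) (h1 : 1 < γ) (h2 : γ < 2) :
    (∀ N, (covMatrix γ N).PosDef) ∧
    Tendsto (kappaN γ) atTop (𝓝 (kappa γ)) ∧
    0 < (7 - 4 * (2 : ℝ) ^ γ + (3 : ℝ) ^ γ) / 2 ∧
    (7 - 4 * (2 : ℝ) ^ γ + (3 : ℝ) ^ γ) / 2 ≤ kappa γ ∧
    0 < kappa γ := by
  have hpos : 0 < (7 - 4 * (2 : ℝ) ^ γ + (3 : ℝ) ^ γ) / 2 := Q297.Fbm.cst_pos h2
  have hbdd : BddBelow (Set.range fun N => kappaN γ (N + 1)) := by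
    refine ⟨Q297.Fbm.cst γ, ?_⟩
    rintro _ ⟨N, rfl⟩
    exact le_kappaN h1 h2 N
  have hlim := tendsto_atTop_ciInf (kappaN_anti h1 h2) hbdd
  have hlim' : Tendsto (kappaN γ) atTop (𝓝 (⨅ N, kappaN γ (N + 1))) :=
    (tendsto_add_atTop_iff_nat 1).1 hlim
  have hk : kappa γ = ⨅ N, kappaN γ (N + 1) := hlim'.limUnder_eq
  have hle : (7 - 4 * (2 : ℝ) ^ γ + (3 : ℝ) ^ γ) / 2 ≤ kappa γ := by
    rw [hk]
    exact le_ciInf (fun N => le_kappaN h1 h2 N)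
  refine ⟨fun N => by rw [covMatrix_eq]; exact Q297.Fbm.covMat_posDef h1 h2 N, ?_, hpos, hle,
    lt_of_lt_of_le hpos hle⟩
  rw [hk]; exact hlim'

end Pool.Agent.Results.MP_271f9a_pr.KappaPositive
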